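import Mathlib

/-! Symmetric monochromatic sets in two-coloured finite groups. -/

set_option autoImplicit false

universe u

namespace Pool.Agent.Results.MP_c32a86_co.TwelfthBound

/-- `A` is symmetric: `A = g A⁻¹ g` for some `g`. -/
def IsSymm {G : Type u} [Group G] (A : Set G) : Prop :=
  ∃ g : G, A = {x | ∃ a ∈ A, x = g * a⁻¹ * g}

section aux

variable {G : Type u} [Group G] [Fintype G]

private lemma conj_sum_nonneg (g : G → ℝ) :
    0 ≤ ∑ h : G, ∑ p : G, g p * g (h⁻¹ * p * h) := by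
  have hcard : (0 : ℝ) < (Fintype.card G : ℝ) := by
    have : 0 < Fintype.card G := Fintype.card_pos_iff.mpr ⟨1⟩
    exact_mod_cast this
  have key : (Fintype.card G : ℝ) * ∑ h : G, ∑ p : G, g p * g (h⁻¹ * p * h)
      = ∑ p : G, (∑ u : G, g (u⁻¹ * p * u)) ^ 2 := by
    have h1 : ∀ u : G, ∑ h : G, ∑ p : G, g p * g (h⁻¹ * p * h)
        = ∑ p : G, ∑ h : G, g (u⁻¹ * p * u) * g (h⁻¹ * p * h) := by
      intro u
      rw [Finset.sum_comm]
      rw [← Equiv.sum_comp (MulAut.conj u⁻¹).toEquiv (fun p => ∑ h : G, g p * g (h⁻¹ * p * h))]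
      refine Finset.sum_congr rfl fun p _ => ?_
      rw [← Equiv.sum_comp (Equiv.mulLeft u) (fun h => g (u⁻¹ * p * u) * g (h⁻¹ * p * h))]
      refine Finset.sum_congr rfl fun h _ => ?_
      simp [mul_assoc]
    calc (Fintype.card G : ℝ) * ∑ h : G, ∑ p : G, g p * g (h⁻¹ * p * h)
        = ∑ u : G, ∑ h : G, ∑ p : G, g p * g (h⁻¹ * p * h) := by
          simp [Finset.sum_const, Finset.card_univ]
      _ = ∑ u : G, ∑ p : G, ∑ h : G, g (u⁻¹ * p * u) * g (h⁻¹ * p * h) :=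
          Finset.sum_congr rfl fun u _ => h1 u
      _ = ∑ p : G, (∑ u : G, g (u⁻¹ * p * u)) ^ 2 := by
          rw [Finset.sum_comm]
          refine Finset.sum_congr rfl fun p _ => ?_
          rw [sq, Finset.sum_mul_sum]
  have h2 : 0 ≤ (Fintype.card G : ℝ) * ∑ h : G, ∑ p : G, g p * g (h⁻¹ * p * h) := by
    rw [key]
    exact Finset.sum_nonneg fun p _ => sq_nonneg _
  exact nonneg_of_mul_nonneg_right h2 hcard

private lemma comm_sum_nonneg (f : G → ℝ) :
    0 ≤ ∑ h : G, ∑ k : G, ∑ x : G, f x * f (h * k * h⁻¹ * k⁻¹ * x) := by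
  have h1 : ∑ h : G, ∑ k : G, ∑ x : G, f x * f (h * k * h⁻¹ * k⁻¹ * x)
      = ∑ w : G, ∑ h : G, ∑ p : G, f (p * w) * f (h⁻¹ * p * h * w) := by
    have : ∀ h k : G, ∑ x : G, f x * f (h * k * h⁻¹ * k⁻¹ * x)
        = ∑ w : G, f (k * h * w) * f (h * k * w) := by
      intro h k
      rw [← Equiv.sum_comp (Equiv.mulLeft (k * h))
        (fun x => f x * f (h * k * h⁻¹ * k⁻¹ * x))]
      refine Finset.sum_congr rfl fun w _ => ?_
      simp [mul_assoc]
    simp_rw [this]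
    rw [Finset.sum_congr rfl fun h _ => Finset.sum_comm, Finset.sum_comm]
    refine Finset.sum_congr rfl fun w _ => Finset.sum_congr rfl fun h _ => ?_
    rw [← Equiv.sum_comp (Equiv.mulLeft h⁻¹)
      (fun k => f (k * h * w) * f (h * k * w))]
    refine Finset.sum_congr rfl fun p _ => ?_
    simp [mul_assoc, mul_comm]
  rw [h1]
  refine Finset.sum_nonneg fun w _ => ?_
  exact conj_sum_nonneg (fun x => f (x * w))

/-- The commutator is a product of three squares; a sign function on `G` cannot be flipped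
by almost all squares.  Explicitly, `∑_{h,x} f(x) f(h²x) ≥ -(2/3)|G|²`. -/
private lemma square_sum_lower (f : G → ℝ) (hf : ∀ x, f x = 1 ∨ f x = -1) :
    -2 * (Fintype.card G : ℝ) ^ 2 ≤ 3 * ∑ h : G, ∑ x : G, f x * f (h * h * x) := by
  classical
  have hcard : (0 : ℝ) < (Fintype.card G : ℝ) := by
    have : 0 < Fintype.card G := Fintype.card_pos_iff.mpr ⟨1⟩
    exact_mod_cast this
  set S : ℝ := ∑ h : G, ∑ x : G, f x * f (h * h * x) with hS
  set n : ℝ := (Fintype.card G : ℝ) with hn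
  -- the three steps
  have e1 : ∑ h : G, ∑ k : G, ∑ x : G, f x * f (k⁻¹ * k⁻¹ * x) = n * S := by
    rw [Finset.sum_const, Finset.card_univ, nsmul_eq_mul]
    congr 1
    rw [hS, ← Equiv.sum_comp (Equiv.inv G) (fun h => ∑ x : G, f x * f (h * h * x))]
    rfl
  have e2 : ∑ h : G, ∑ k : G, ∑ x : G,
      f (k⁻¹ * k⁻¹ * x) * f ((h⁻¹ * k) * (h⁻¹ * k) * (k⁻¹ * k⁻¹ * x)) = n * S := by
    rw [Finset.sum_comm]
    have : ∀ k : G, ∑ h : G, ∑ x : G,
        f (k⁻¹ * k⁻¹ * x) * f ((h⁻¹ * k) * (h⁻¹ * k) * (k⁻¹ * k⁻¹ * x)) = S := by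
      intro k
      rw [hS, ← Equiv.sum_comp ((Equiv.inv G).trans (Equiv.mulRight k))
        (fun h => ∑ x : G, f x * f (h * h * x))]
      refine Finset.sum_congr rfl fun h _ => ?_
      rw [← Equiv.sum_comp (Equiv.mulLeft (k⁻¹ * k⁻¹)) (fun x => f x * f _)]
      rfl
    rw [Finset.sum_congr rfl fun k _ => this k, Finset.sum_const, Finset.card_univ, nsmul_eq_mul]
  have e3 : ∑ h : G, ∑ k : G, ∑ x : G,
      f ((h⁻¹ * k) * (h⁻¹ * k) * (k⁻¹ * k⁻¹ * x)) *
        f (h * h * ((h⁻¹ * k) * (h⁻¹ * k) * (k⁻¹ * k⁻¹ * x))) = n * S := by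
    rw [Finset.sum_comm]
    have : ∀ k : G, ∑ h : G, ∑ x : G,
        f ((h⁻¹ * k) * (h⁻¹ * k) * (k⁻¹ * k⁻¹ * x)) *
        f (h * h * ((h⁻¹ * k) * (h⁻¹ * k) * (k⁻¹ * k⁻¹ * x))) = S := by
      intro k
      rw [hS]
      refine Finset.sum_congr rfl fun h _ => ?_
      rw [← Equiv.sum_comp (Equiv.mulLeft ((h⁻¹ * k) * (h⁻¹ * k) * (k⁻¹ * k⁻¹)))
        (fun x => f x * f (h * h * x))]
      refine Finset.sum_congr rfl fun x _ => ?_
      simp only [Equiv.coe_mulLeft, mul_assoc]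
    rw [Finset.sum_congr rfl fun k _ => this k, Finset.sum_const, Finset.card_univ, nsmul_eq_mul]
  have hsq : ∀ x, f x * f x = 1 := by
    intro x
    rcases hf x with h | h <;> rw [h] <;> norm_num
  have pointwise : ∀ h k x : G, f x * f (h * k * h⁻¹ * k⁻¹ * x) ≤
      f x * f (k⁻¹ * k⁻¹ * x)
      + f (k⁻¹ * k⁻¹ * x) * f ((h⁻¹ * k) * (h⁻¹ * k) * (k⁻¹ * k⁻¹ * x))
      + f ((h⁻¹ * k) * (h⁻¹ * k) * (k⁻¹ * k⁻¹ * x)) *
        f (h * h * ((h⁻¹ * k) * (h⁻¹ * k) * (k⁻¹ * k⁻¹ * x))) + 2 := by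
    intro h k x
    have hx : h * h * ((h⁻¹ * k) * (h⁻¹ * k) * (k⁻¹ * k⁻¹ * x)) = h * k * h⁻¹ * k⁻¹ * x := by
      group
    rw [hx]
    rcases hf x with h1 | h1 <;> rcases hf (k⁻¹ * k⁻¹ * x) with h2 | h2 <;>
      rcases hf ((h⁻¹ * k) * (h⁻¹ * k) * (k⁻¹ * k⁻¹ * x)) with h3 | h3 <;>
      rcases hf (h * k * h⁻¹ * k⁻¹ * x) with h4 | h4 <;>
      rw [h1, h2, h3, h4] <;> norm_num
  have hsum : ∑ h : G, ∑ k : G, ∑ x : G, f x * f (h * k * h⁻¹ * k⁻¹ * x)
      ≤ n * S + n * S + n * S + 2 * n ^ 3 := by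
    calc ∑ h : G, ∑ k : G, ∑ x : G, f x * f (h * k * h⁻¹ * k⁻¹ * x)
        ≤ ∑ h : G, ∑ k : G, ∑ x : G, (f x * f (k⁻¹ * k⁻¹ * x)
      + f (k⁻¹ * k⁻¹ * x) * f ((h⁻¹ * k) * (h⁻¹ * k) * (k⁻¹ * k⁻¹ * x))
      + f ((h⁻¹ * k) * (h⁻¹ * k) * (k⁻¹ * k⁻¹ * x)) *
        f (h * h * ((h⁻¹ * k) * (h⁻¹ * k) * (k⁻¹ * k⁻¹ * x))) + 2) :=
          Finset.sum_le_sum fun h _ => Finset.sum_le_sum fun k _ =>
            Finset.sum_le_sum fun x _ => pointwise h k x
      _ = n * S + n * S + n * S + 2 * n ^ 3 := by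
          simp only [Finset.sum_add_distrib]
          rw [e1, e2, e3]
          simp only [Finset.sum_const, Finset.card_univ, nsmul_eq_mul]
          rw [← hn]
          ring
  have h0 := comm_sum_nonneg f
  have h3 : 0 ≤ n * (3 * S + 2 * n ^ 2) := by nlinarith [h0, hsum]
  have h4 := nonneg_of_mul_nonneg_right h3 hcard
  linarith

/-- For every 2-colouring of a finite group some centre and some colour have a
monochromatic symmetric set with at least `|G|/12` elements. -/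
private lemma two_colour (χ : G → Fin 2) :
    ∃ c : G, ∃ i : Fin 2, (1 / 12 : ℝ) * (Fintype.card G : ℝ) ≤
      ((Finset.univ.filter (fun x : G => χ x = i ∧ χ (c * x⁻¹ * c) = i)).card : ℝ) := by
  classical
  by_contra hcon
  push Not at hcon
  have hcard : (0 : ℝ) < (Fintype.card G : ℝ) := by
    have : 0 < Fintype.card G := Fintype.card_pos_iff.mpr ⟨1⟩
    exact_mod_cast this
  set f : G → ℝ := fun x => if χ x = 0 then 1 else -1 with hfdef
  have hf : ∀ x, f x = 1 ∨ f x = -1 := by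
    intro x
    by_cases h : χ x = 0
    · left; simp [hfdef, h]
    · right; simp [hfdef, h]
  have hprod : ∀ x y : G, f x * f y =
      2 * ((if χ x = 0 ∧ χ y = 0 then (1:ℝ) else 0) + (if χ x = 1 ∧ χ y = 1 then (1:ℝ) else 0))
        - 1 := by
    intro x y
    have h01 : ∀ z : Fin 2, z = 0 ∨ z = 1 := by decide
    rcases h01 (χ x) with h1 | h1 <;> rcases h01 (χ y) with h2 | h2 <;>
      simp [hfdef, h1, h2] <;> norm_num
  have hreindex : ∑ h : G, ∑ x : G, f x * f (h * h * x)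
      = ∑ c : G, ∑ x : G, f x * f (c * x⁻¹ * c) := by
    rw [Finset.sum_comm, Finset.sum_comm (f := fun c x => f x * f (c * x⁻¹ * c))]
    refine Finset.sum_congr rfl fun x _ => ?_
    rw [← Equiv.sum_comp (Equiv.mulRight x) (fun c => f x * f (c * x⁻¹ * c))]
    refine Finset.sum_congr rfl fun h _ => ?_
    simp [mul_assoc]
  have hlow := square_sum_lower f hf
  rw [hreindex] at hlow
  have hup : ∀ c : G, ∑ x : G, f x * f (c * x⁻¹ * c) <
      -(2 / 3 : ℝ) * (Fintype.card G : ℝ) := by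
    intro c
    have h0 := hcon c 0
    have h1 := hcon c 1
    have : ∑ x : G, f x * f (c * x⁻¹ * c) =
        2 * (((Finset.univ.filter (fun x : G => χ x = 0 ∧ χ (c * x⁻¹ * c) = 0)).card : ℝ)
          + ((Finset.univ.filter (fun x : G => χ x = 1 ∧ χ (c * x⁻¹ * c) = 1)).card : ℝ))
          - (Fintype.card G : ℝ) := by
      simp_rw [hprod]
      rw [Finset.sum_sub_distrib, ← Finset.mul_sum, Finset.sum_add_distrib]
      simp [Finset.card_univ]
    rw [this]
    linarith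
  have hne : (Finset.univ : Finset G).Nonempty := ⟨1, Finset.mem_univ _⟩
  have hlt : ∑ c : G, ∑ x : G, f x * f (c * x⁻¹ * c)
      < ∑ _c : G, -(2 / 3 : ℝ) * (Fintype.card G : ℝ) :=
    Finset.sum_lt_sum_of_nonempty hne fun c _ => hup c
  rw [Finset.sum_const, Finset.card_univ, nsmul_eq_mul] at hlt
  nlinarith

end aux

/-- **Main result.** In every 2-colouring of a finite group `G` some monochromatic symmetric
set has at least `|G| / 12` elements. -/
theorem result (G : Type u) [Group G] [Finite G] (χ : G → Fin 2) :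
    ∃ A : Set G, IsSymm A ∧ (∃ i : Fin 2, ∀ x ∈ A, χ x = i) ∧ Nat.card G ≤ 12 * A.ncard := by
  classical
  haveI : Fintype G := Fintype.ofFinite G
  obtain ⟨c, i, hci⟩ := two_colour χ
  refine ⟨{x | χ x = i ∧ χ (c * x⁻¹ * c) = i}, ⟨c, ?_⟩, ⟨i, fun x hx => hx.1⟩, ?_⟩
  · ext x
    constructor
    · rintro ⟨h1, h2⟩
      refine ⟨c * x⁻¹ * c, ⟨h2, ?_⟩, by group⟩
      have : c * (c * x⁻¹ * c)⁻¹ * c = x := by group
      rw [this]
      exact h1
    · rintro ⟨a, ⟨h1, h2⟩, rfl⟩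
      refine ⟨h2, ?_⟩
      have : c * (c * a⁻¹ * c)⁻¹ * c = a := by group
      rw [this]
      exact h1
  · have h1 : ({x | χ x = i ∧ χ (c * x⁻¹ * c) = i} : Set G).ncard =
        (Finset.univ.filter (fun x : G => χ x = i ∧ χ (c * x⁻¹ * c) = i)).card := by
      rw [← Set.ncard_coe_finset]
      congr 1
      ext x
      simp
    rw [h1, Nat.card_eq_fintype_card]
    have h2 : (Fintype.card G : ℝ) ≤
        12 * ((Finset.univ.filter (fun x : G => χ x = i ∧ χ (c * x⁻¹ * c) = i)).card : ℝ) := by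
      linarith
    exact_mod_cast h2

end Pool.Agent.Results.MP_c32a86_co.TwelfthBound
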